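import Pool.Agent.W543.CK.SumFin

/-!
# Chow-Kunneth decompositions and direct sums

`C` are the Chow groups (with rational coefficients), `H` is a Weil cohomology theory, and
`HasCK H X` says that the variety `X` has a Chow-Kunneth decomposition. If the motive of `Y` is the
direct sum of the motive of `X` and of a motive `N` which has a Chow-Kunneth decomposition and whose
homologically trivial endomorphisms are nilpotent, then `X` has a Chow-Kunneth decomposition if and
only if `Y` has one.
-/

open CategoryTheory AlgebraicGeometry

universe u v w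

namespace Pool.Agent.Results.MP_524776_ag.Cancellation

open Pool.Agent.H914 Pool.Agent.H914.VarClass Pool.Agent.H914.VarClass.Obj Pool.Agent.W492.BB
  Pool.Agent.W550.Corr Pool.Agent.W550.Murre Pool.Agent.W543.CK

variable {k : Type u} [Field k] {𝒱 : VarClass k} {C : TheoryData.{u, v, 0} 𝒱 ℚ} {K : Type w}
  [Field K]

theorem result (H : WeilTheoryData.{u, v, w} C K) [IsChow C] [IsWeil H] (hS : IsStandard H) :
    -- one step (for example a blow-up `Y` of `X`)
    (∀ X Y : 𝒱.Obj, Link H X Y → (HasCK H X ↔ HasCK H Y)) ∧
    -- the nilpotence is needed for the step from `Y` to `X` only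
    (∀ (X Y : 𝒱.Obj) (f : C.A (Y.prod Y)) (q : ℕ → C.A (Y.prod Y)), SplitsOff C X Y f →
      IsCKOf H f q → HasCK H X → HasCK H Y) ∧
    -- chains of such steps in both directions (for example of blow-ups and blow-downs)
    (∀ X Y : 𝒱.Obj, Relation.EqvGen (Link H) X Y → (HasCK H X ↔ HasCK H Y)) := by
  have hI : HasIso C := hasIso_of_std H hS
  exact ⟨fun X Y h => ck_iff_of_link hS h, fun X Y f q h1 h2 h3 => ck_of_summands hS h1 h2 h3,
    fun X Y h => ck_iff_of_chain hS h⟩

end Pool.Agent.Results.MP_524776_ag.Cancellation
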